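import Pool.Agent.Helper2.EX.Main4

/-!
# Exactly two extenders witness strength, one of them good and the other one bad
-/

open Set Cardinal Helper2.EX

namespace Pool.Agent.Results.MP_ace4d7_lc.ExactlyTwoWitnesses

/-- Let `κ` be `ρ`-strong, `|V_ρ| = ρ`, with an inaccessible `ν` between `κ` and `ρ`.
(1) There are cardinals `α < β < κ`, `β` singular, `|V_β| = β`, with a bad (α, β)-witness, such
that every (α, β)-witness belongs to `Ult(V, F)` for another (α, β)-witness `F`, and all such `F`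
are good. (2) If the Mitchell order is linear on (α, β)-witnesses for all `α < β < κ`, then there
are cardinals `α < β < κ`, `β` singular, `|V_β| = β`, with exactly two (α, β)-witnesses, a bad one
and a good one. -/
theorem result (κ ν ρ : Ord) (F : Set (Set Asg)) (hκν : κ < ν) (hνρ : ν < ρ)
    (hν : ν.card.ord = ν) (hν' : ν.card.IsInaccessible) (hρ : (preBeth ρ).ord = ρ)
    (hF : IsWitness κ ρ F) :
    (∃ α β, α.card.ord = α ∧ β < κ ∧ IsSingFix α β ∧ (∃ E, IsBad α β E) ∧
      (∀ E, IsWitness α β E → ∃ F', IsWitness α β F' ∧ Mit α β E F') ∧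
      (∀ E F', IsWitness α β E → IsWitness α β F' → Mit α β E F' → IsGood α β F')) ∧
    ((∀ α β, β < κ → IsSingFix α β → MitLinear α β) →
      ∃ α β, α.card.ord = α ∧ β < κ ∧ IsSingFix α β ∧ ExactlyTwo α β) := by
  have hω : Ordinal.omega0 < ρ := hF.1.omega_lt_kappa.trans (hκν.trans hνρ)
  obtain ⟨-, hlim, hpow⟩ := fix_props hω hρ
  have hν'' : RSL ν := rsl_of_inaccessible hν hν'
  constructor
  · obtain ⟨α, β, -, h2, hβ, hmin, ⟨B, hB⟩, hlast⟩ :=
      exists_pair hκν hνρ hν'' hpow hlim hF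
    exact ⟨α, β, hB.1.1.kappa_card, h2, hβ, ⟨B, hB⟩, hlast, fun E F' hE hF' hM =>
      ⟨hF', good_of_mit hβ hmin hE hF' hM⟩⟩
  · intro hlin
    obtain ⟨α, β, -, h2, h3, h4⟩ :=
      exists_exactlyTwo_of_strong hκν hνρ hν'' hpow hlim hF hlin
    have h5 := h4
    obtain ⟨E₀, -, -, hE₀, -⟩ := h5
    exact ⟨α, β, hE₀.1.1.kappa_card, h2, h3, h4⟩

end Pool.Agent.Results.MP_ace4d7_lc.ExactlyTwoWitnesses
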